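import Pool.Agent.Q277.TG.Interp

set_option autoImplicit false

namespace Pool.Agent.Q277.TG

open MeasureTheory Filter Topology

theorem om_sign (n : ℕ) (x : ℝ) : om n x = 1 ∨ om n x = -1 := by
  unfold om
  rcases W_sign n ⌊2 ^ n * x⌋₊ with h | h <;> rw [h]
  · left; norm_num
  · right; norm_num

theorem term_le (n : ℕ) (x : ℝ) : ‖om n x / 2 ^ n * phi (2 ^ n * x)‖ ≤ 1 / 2 * (1 / 2) ^ n := by
  have h1 : |om n x| = 1 := by rcases om_sign n x with h | h <;> rw [h] <;> norm_num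
  have h2 : |phi (2 ^ n * x)| ≤ 1 / 2 := by
    unfold phi
    rw [abs_abs]
    exact abs_sub_round _
  rw [Real.norm_eq_abs, abs_mul, abs_div, h1, abs_of_pos (by positivity : (0 : ℝ) < 2 ^ n)]
  calc 1 / 2 ^ n * |phi (2 ^ n * x)| ≤ 1 / 2 ^ n * (1 / 2) :=
        mul_le_mul_of_nonneg_left h2 (by positivity)
    _ = 1 / 2 * (1 / 2) ^ n := by rw [one_div_pow]; ring

theorem tail_le (n : ℕ) (x : ℝ) :
    |(∑' i, om i x / 2 ^ i * phi (2 ^ i * x)) - ps n x| ≤ (1 / 2) ^ n := by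
  have hs : Summable (fun i : ℕ => om i x / 2 ^ i * phi (2 ^ i * x)) := by
    apply Summable.of_norm_bounded (g := fun i : ℕ => 1 / 2 * (1 / 2 : ℝ) ^ i)
    · exact (summable_geometric_of_lt_one (by norm_num) (by norm_num)).mul_left _
    · intro i; exact term_le i x
  have h1 := hs.sum_add_tsum_nat_add n
  have h2 : (∑' i, om i x / 2 ^ i * phi (2 ^ i * x)) - ps n x =
      ∑' i, om (i + n) x / 2 ^ (i + n) * phi (2 ^ (i + n) * x) := by
    unfold ps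
    rw [← h1]; ring
  rw [h2, ← Real.norm_eq_abs]
  apply tsum_of_norm_bounded (g := fun i : ℕ => (1 / 2 : ℝ) ^ n * (1 / 2) * (1 / 2) ^ i)
  · have := (hasSum_geometric_two).mul_left ((1 / 2 : ℝ) ^ n * (1 / 2))
    have e : (1 / 2 : ℝ) ^ n * (1 / 2) * 2 = (1 / 2) ^ n := by ring
    rw [e] at this
    exact this
  · intro i
    refine (term_le (i + n) x).trans (le_of_eq ?_)
    rw [pow_add]; ring

/-- the box of admissible labelled types -/
noncomputable def box (m : ℕ) (y : ℝ) : Finset (ℤ × ℤ × ℤ) :=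
  Finset.Icc (⌊2 ^ (2 * m + 1) * y⌋ - (2 * m + 2)) (⌊2 ^ (2 * m + 1) * y⌋ + (2 * m + 2)) ×ˢ
    Finset.Icc (⌊2 ^ (2 * m + 1) * y⌋ - (2 * m + 2)) (⌊2 ^ (2 * m + 1) * y⌋ + (2 * m + 2)) ×ˢ
      Finset.Icc 0 1

theorem box_card (m : ℕ) (y : ℝ) : (box m y).card = 2 * (4 * m + 5) ^ 2 := by
  unfold box
  rw [Finset.card_product, Finset.card_product, Int.card_Icc, Int.card_Icc]
  have e : (⌊2 ^ (2 * m + 1) * y⌋ + (2 * (m : ℤ) + 2) + 1 - (⌊2 ^ (2 * m + 1) * y⌋ - (2 * m + 2))).toNat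
      = 4 * m + 5 := by omega
  rw [e, show ((1 : ℤ) + 1 - 0).toNat = 2 from rfl]
  ring

/-- the intervals which can meet the level set -/
noncomputable def Kf (m : ℕ) (y : ℝ) : Finset ℕ :=
  (Finset.range (2 * 4 ^ m)).filter (fun k => nd m k ∈ box m y)

theorem Kf_card (m : ℕ) (y : ℝ) : (Kf m y).card ≤ 2 * (4 * m + 5) ^ 2 := by
  rw [← box_card m y]
  apply Finset.card_le_card_of_injOn (nd m)
  · intro k hk
    unfold Kf at hk
    simp only [Finset.coe_filter, Set.mem_ofPred_eq] at hk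
    exact hk.2
  · intro k hk k' hk' h
    unfold Kf at hk hk'
    simp only [Finset.coe_filter, Finset.mem_range, Set.mem_ofPred_eq] at hk hk'
    exact nd_inj m k k' hk.1 hk'.1 h

theorem mem_Kf (m : ℕ) (x : ℝ) (h0 : 0 ≤ x) (h1 : x < 1) (y : ℝ)
    (hy : ∑' i, om i x / 2 ^ i * phi (2 ^ i * x) = y) : ⌊2 ^ (2 * m + 1) * x⌋₊ ∈ Kf m y := by
  have hi := interp m x h0
  have ht := tail_le (2 * m + 1) x
  rw [hy] at ht
  set X : ℝ := 2 ^ (2 * m + 1) * x with hX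
  have hX0 : 0 ≤ X := by positivity
  have hu0 : 0 ≤ X - (⌊X⌋₊ : ℝ) := by linarith [Nat.floor_le hX0]
  have hu1 : X - (⌊X⌋₊ : ℝ) < 1 := by linarith [Nat.lt_floor_add_one X]
  have hp : (0 : ℝ) < 2 ^ (2 * m + 1) := by positivity
  have ht2 : |2 ^ (2 * m + 1) * y - 2 ^ (2 * m + 1) * ps (2 * m + 1) x| ≤ 1 := by
    rw [← mul_sub, abs_mul, abs_of_pos hp]
    calc 2 ^ (2 * m + 1) * |y - ps (2 * m + 1) x| ≤ 2 ^ (2 * m + 1) * (1 / 2) ^ (2 * m + 1) :=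
          mul_le_mul_of_nonneg_left ht hp.le
      _ = 1 := by rw [← mul_pow]; norm_num
  rw [hi] at ht2
  obtain ⟨t1, t2⟩ := abs_le.mp ht2
  have g := nd_good m ⌊X⌋₊
  obtain ⟨g1, g2, g3, g4, g5⟩ := g
  set k := ⌊X⌋₊ with hk
  have hkl : k < 2 * 4 ^ m := by
    have : (k : ℝ) < 2 ^ (2 * m + 1) := by
      have : X < 2 ^ (2 * m + 1) := by
        rw [hX]; nlinarith
      linarith
    have h2 : ((k : ℕ) : ℝ) < ((2 ^ (2 * m + 1) : ℕ) : ℝ) := by push_cast; exact this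
    have h3 : k < 2 ^ (2 * m + 1) := by exact_mod_cast h2
    have h4 : 2 ^ (2 * m + 1) = 2 * 4 ^ m := by
      rw [pow_succ, pow_mul]; norm_num; ring
    omega
  set q : ℤ := ⌊2 ^ (2 * m + 1) * y⌋ with hq
  have hq1 : (q : ℝ) ≤ 2 ^ (2 * m + 1) * y := Int.floor_le _
  have hq2 : 2 ^ (2 * m + 1) * y < q + 1 := Int.lt_floor_add_one _
  -- the two end heights
  have key : ∀ A B : ℤ, B - A ≤ 2 * m + 1 → A - B ≤ 2 * m + 1 → ∀ u : ℝ, 0 ≤ u → u < 1 →
      -1 ≤ 2 ^ (2 * m + 1) * y - ((1 - u) * (A : ℝ) + u * (B : ℝ)) →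
      2 ^ (2 * m + 1) * y - ((1 - u) * (A : ℝ) + u * (B : ℝ)) ≤ 1 →
      (q - (2 * m + 2) ≤ A ∧ A ≤ q + (2 * m + 2)) ∧ (q - (2 * m + 2) ≤ B ∧ B ≤ q + (2 * m + 2)) := by
    intro A B h1 h2 u hu0 hu1 h3 h4
    have h1' : (B : ℝ) - A ≤ 2 * m + 1 := by exact_mod_cast h1
    have h2' : (A : ℝ) - B ≤ 2 * m + 1 := by exact_mod_cast h2
    have hm : (0 : ℝ) ≤ 2 * m + 1 := by positivity
    have a1 : u * ((B : ℝ) - A) ≤ 2 * m + 1 := by nlinarith
    have a2 : -(2 * (m : ℝ) + 1) ≤ u * ((B : ℝ) - A) := by nlinarith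
    have b1 : (1 - u) * ((B : ℝ) - A) ≤ 2 * m + 1 := by nlinarith
    have b2 : -(2 * (m : ℝ) + 1) ≤ (1 - u) * ((B : ℝ) - A) := by nlinarith
    refine ⟨⟨?_, ?_⟩, ⟨?_, ?_⟩⟩
    · have : (q : ℝ) - (2 * m + 2) ≤ A := by nlinarith
      exact_mod_cast this
    · have : (A : ℝ) < (q : ℝ) + (2 * m + 2) + 1 := by nlinarith
      have : A < q + (2 * m + 2) + 1 := by exact_mod_cast this
      omega
    · have : (q : ℝ) - (2 * m + 2) ≤ B := by nlinarith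
      exact_mod_cast this
    · have : (B : ℝ) < (q : ℝ) + (2 * m + 2) + 1 := by nlinarith
      have : B < q + (2 * m + 2) + 1 := by exact_mod_cast this
      omega
  unfold Kf
  rw [Finset.mem_filter, Finset.mem_range]
  refine ⟨hkl, ?_⟩
  unfold box
  rw [Finset.mem_product, Finset.mem_product, Finset.mem_Icc, Finset.mem_Icc, Finset.mem_Icc]
  unfold Lh Rh at t1 t2
  by_cases hpar : k % 2 = 0
  · rw [if_pos hpar, if_pos hpar] at t1 t2
    obtain ⟨r1, r2⟩ := key _ _ g4 g5 _ hu0 hu1 t1 t2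
    exact ⟨r1, r2, by omega⟩
  · rw [if_neg hpar, if_neg hpar] at t1 t2
    obtain ⟨r1, r2⟩ := key _ _ g5 g4 _ hu0 hu1 t1 t2
    exact ⟨r2, r1, by omega⟩

theorem level_measure (y : ℝ) (d : ℝ) (hd : 0 < d) :
    μH[d] {x : ℝ | (0 ≤ x ∧ x < 1) ∧ ∑' i, om i x / 2 ^ i * phi (2 ^ i * x) = y} ≠ ⊤ := by
  have hle := Measure.hausdorffMeasure_le_liminf_sum (X := ℝ) (β := ℕ) (ι := fun m => Kf m y) d
    {x : ℝ | (0 ≤ x ∧ x < 1) ∧ ∑' i, om i x / 2 ^ i * phi (2 ^ i * x) = y} (l := atTop)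
    (fun m => ENNReal.ofReal ((1 / 2) ^ (2 * m + 1))) ?_
    (fun m k => Set.Icc ((((k : ℕ) : ℝ)) / 2 ^ (2 * m + 1)) ((((k : ℕ) : ℝ) + 1) / 2 ^ (2 * m + 1))) ?_ ?_
  · refine ne_top_of_le_ne_top ?_ hle
    set r : ℝ := (1 / 2) ^ d with hr
    have hr0 : 0 < r := by positivity
    have hr1 : r < 1 := Real.rpow_lt_one (by norm_num) (by norm_num) hd
    have hb : ∀ m : ℕ, (∑ k : Kf m y, Metric.ediam (Set.Icc ((((k : ℕ) : ℝ)) / 2 ^ (2 * m + 1))
        ((((k : ℕ) : ℝ) + 1) / 2 ^ (2 * m + 1))) ^ d) ≤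
        ENNReal.ofReal (50 * (((2 * m + 1 : ℕ) : ℝ) ^ 2 * r ^ (2 * m + 1))) := by
      intro m
      have e1 : ∀ k : Kf m y, Metric.ediam (Set.Icc ((((k : ℕ) : ℝ)) / 2 ^ (2 * m + 1))
        ((((k : ℕ) : ℝ) + 1) / 2 ^ (2 * m + 1))) ^ d = ENNReal.ofReal (r ^ (2 * m + 1)) := by
        intro k
        rw [Real.ediam_Icc]
        have : (((k : ℕ) : ℝ) + 1) / 2 ^ (2 * m + 1) - ((k : ℕ) : ℝ) / 2 ^ (2 * m + 1) =
            (1 / 2) ^ (2 * m + 1) := by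
          rw [one_div_pow]; ring
        rw [this, ENNReal.ofReal_rpow_of_pos (by positivity), hr, ← Real.rpow_natCast,
          ← Real.rpow_natCast, ← Real.rpow_mul (by norm_num), ← Real.rpow_mul (by norm_num),
          mul_comm d]
      rw [Finset.sum_congr rfl (fun k _ => e1 k), Finset.sum_const, Finset.card_univ,
        Fintype.card_coe, nsmul_eq_mul]
      have hc := Kf_card m y
      calc ((Kf m y).card : ENNReal) * ENNReal.ofReal (r ^ (2 * m + 1))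
          ≤ ENNReal.ofReal (50 * ((2 * m + 1 : ℕ) : ℝ) ^ 2) * ENNReal.ofReal (r ^ (2 * m + 1)) := by
            gcongr
            rw [← ENNReal.ofReal_natCast]
            apply ENNReal.ofReal_le_ofReal
            have : ((Kf m y).card : ℝ) ≤ ((2 * (4 * m + 5) ^ 2 : ℕ) : ℝ) := by exact_mod_cast hc
            refine this.trans ?_
            push_cast
            nlinarith [Nat.cast_nonneg (α := ℝ) m]
        _ = ENNReal.ofReal (50 * (((2 * m + 1 : ℕ) : ℝ) ^ 2 * r ^ (2 * m + 1))) := by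
            rw [← ENNReal.ofReal_mul (by positivity), mul_assoc]
    have ht : Tendsto (fun m : ℕ => ENNReal.ofReal (50 * (((2 * m + 1 : ℕ) : ℝ) ^ 2 *
        r ^ (2 * m + 1)))) atTop (𝓝 0) := by
      have h1 := tendsto_pow_const_mul_const_pow_of_abs_lt_one 2 (r := r)
        (by rw [abs_of_pos hr0]; exact hr1)
      have h2 : Tendsto (fun m : ℕ => 2 * m + 1) atTop atTop :=
        tendsto_atTop_mono (fun m => by show m ≤ 2 * m + 1; omega) tendsto_id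
      have h3 := (h1.comp h2).const_mul 50
      rw [mul_zero] at h3
      have h4 := ENNReal.tendsto_ofReal h3
      rw [ENNReal.ofReal_zero] at h4
      exact h4
    have hlim : liminf (fun m : ℕ => ∑ k : Kf m y, Metric.ediam
        (Set.Icc ((((k : ℕ) : ℝ)) / 2 ^ (2 * m + 1)) ((((k : ℕ) : ℝ) + 1) / 2 ^ (2 * m + 1))) ^ d)
        atTop ≤ 0 := by
      rw [← ht.liminf_eq]
      exact liminf_le_liminf (Eventually.of_forall hb)
    exact ne_top_of_le_ne_top ENNReal.zero_ne_top hlim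
  · have h1 : Tendsto (fun n : ℕ => (1 / 2 : ℝ) ^ n) atTop (𝓝 0) :=
      tendsto_pow_atTop_nhds_zero_of_lt_one (by norm_num) (by norm_num)
    have h2 : Tendsto (fun m : ℕ => 2 * m + 1) atTop atTop :=
      tendsto_atTop_mono (fun m => by show m ≤ 2 * m + 1; omega) tendsto_id
    have h4 := ENNReal.tendsto_ofReal (h1.comp h2)
    rw [ENNReal.ofReal_zero] at h4
    exact h4
  · refine Eventually.of_forall fun m k => ?_
    rw [Real.ediam_Icc]
    apply le_of_eq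
    congr 1
    rw [one_div_pow]; ring
  · refine Eventually.of_forall fun m x hx => ?_
    obtain ⟨⟨h0, h1⟩, hy⟩ := hx
    have hp : (0 : ℝ) < 2 ^ (2 * m + 1) := by positivity
    rw [Set.mem_iUnion]
    refine ⟨⟨⌊2 ^ (2 * m + 1) * x⌋₊, mem_Kf m x h0 h1 y hy⟩, ?_⟩
    rw [Set.mem_Icc, div_le_iff₀ hp, le_div_iff₀ hp]
    constructor
    · have := Nat.floor_le (by positivity : 0 ≤ 2 ^ (2 * m + 1) * x)
      show ((⌊2 ^ (2 * m + 1) * x⌋₊ : ℕ) : ℝ) ≤ _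
      linarith
    · have := Nat.lt_floor_add_one (2 ^ (2 * m + 1) * x)
      show _ ≤ ((⌊2 ^ (2 * m + 1) * x⌋₊ : ℕ) : ℝ) + 1
      linarith

theorem level_dim (y : ℝ) :
    dimH {x : ℝ | x ∈ Set.Icc (0 : ℝ) 1 ∧ ∑' i, om i x / 2 ^ i * phi (2 ^ i * x) = y} = 0 := by
  have h1 : dimH {x : ℝ | (0 ≤ x ∧ x < 1) ∧ ∑' i, om i x / 2 ^ i * phi (2 ^ i * x) = y} = 0 := by
    have h : ∀ d : NNReal, 0 < d →
        dimH {x : ℝ | (0 ≤ x ∧ x < 1) ∧ ∑' i, om i x / 2 ^ i * phi (2 ^ i * x) = y} ≤ d := by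
      intro d hd
      apply dimH_le_of_hausdorffMeasure_ne_top
      exact level_measure y d (by exact_mod_cast hd)
    by_contra hne
    have hpos : 0 < dimH {x : ℝ | (0 ≤ x ∧ x < 1) ∧
        ∑' i, om i x / 2 ^ i * phi (2 ^ i * x) = y} := pos_iff_ne_zero.mpr hne
    obtain ⟨d, hd0, hd1⟩ := ENNReal.lt_iff_exists_nnreal_btwn.mp hpos
    exact absurd (h d (by exact_mod_cast hd0)) (not_le.mpr hd1)
  have h2 : {x : ℝ | x ∈ Set.Icc (0 : ℝ) 1 ∧ ∑' i, om i x / 2 ^ i * phi (2 ^ i * x) = y} ⊆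
      {x : ℝ | (0 ≤ x ∧ x < 1) ∧ ∑' i, om i x / 2 ^ i * phi (2 ^ i * x) = y} ∪ {1} := by
    rintro x ⟨⟨h0, h1⟩, hy⟩
    rcases eq_or_lt_of_le h1 with h | h
    · right; exact h
    · left; exact ⟨⟨h0, h⟩, hy⟩
  apply le_antisymm _ (zero_le)
  refine (dimH_mono h2).trans ?_
  rw [dimH_union, h1, dimH_singleton]
  simp

theorem om_const (n j : ℕ) (x : ℝ) (h1 : (j : ℝ) / 2 ^ n ≤ x) (h2 : x < (j + 1) / 2 ^ n) :
    om n x = om n ((j : ℝ) / 2 ^ n) := by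
  have hp : (0 : ℝ) < 2 ^ n := by positivity
  rw [div_le_iff₀ hp] at h1
  rw [lt_div_iff₀ hp] at h2
  have e1 : ⌊2 ^ n * x⌋₊ = j := by
    rw [Nat.floor_eq_iff]
    · constructor <;> linarith
    · have : (0 : ℝ) ≤ j := by positivity
      linarith
  have e2 : ⌊2 ^ n * ((j : ℝ) / 2 ^ n)⌋₊ = j := by
    rw [mul_div_cancel₀ _ hp.ne', Nat.floor_natCast]
  unfold om
  rw [e1, e2]

end Pool.Agent.Q277.TG
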