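import Pool.Agent.Q277.TG.Tree

set_option autoImplicit false

namespace Pool.Agent.Q277.TG

/-- distance to the nearest integer -/
noncomputable def phi (x : ℝ) : ℝ := |x - round x|

/-- the sign functions -/
noncomputable def om (n : ℕ) (x : ℝ) : ℝ := ((W n ⌊2 ^ n * x⌋₊ : ℤ) : ℝ)

/-- partial sums -/
noncomputable def ps (n : ℕ) (x : ℝ) : ℝ :=
  ∑ i ∈ Finset.range n, om i x / 2 ^ i * phi (2 ^ i * x)

theorem phi_add (k : ℕ) (u : ℝ) (h0 : 0 ≤ u) (h1 : u < 1) : phi ((k : ℝ) + u) = min u (1 - u) := by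
  unfold phi
  rw [abs_sub_round_eq_min]
  have : Int.fract ((k : ℝ) + u) = u := by
    rw [Int.fract_natCast_add]
    exact Int.fract_eq_self.mpr ⟨h0, h1⟩
  rw [this]

theorem floor_add (k : ℕ) (u : ℝ) (h0 : 0 ≤ u) (h1 : u < 1) : ⌊(k : ℝ) + u⌋₊ = k := by
  rw [Nat.floor_eq_iff (by positivity)]
  constructor <;> linarith

theorem nd_succ (m k i : ℕ) (hi : i < 4) :
    nd (m + 1) (4 * k + i) = F (nd m k).1 (nd m k).2.1 (nd m k).2.2
      (if k % 2 = 0 then i else 3 - i) := by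
  have h1 : (4 * k + i) / 4 = k := by omega
  have h2 : (4 * k + i) % 4 = i := by omega
  conv_lhs => unfold nd
  rw [h1, h2]

/-- the algebra of one two-level step -/
theorem step_alg (m k i : ℕ) (hi : i < 4) (u : ℝ) (h0 : (i : ℝ) ≤ 4 * u) (h1 : 4 * u < i + 1) :
    4 * ((1 - u) * (Lh m k : ℝ) + u * (Rh m k : ℝ)) + 4 * ((s1 (nd m k) : ℤ) : ℝ) * min u (1 - u) +
      2 * ((s2 (nd m k) (2 * k + i / 2) : ℤ) : ℝ) *
        min (2 * u - ((i / 2 : ℕ) : ℝ)) (1 - (2 * u - ((i / 2 : ℕ) : ℝ))) =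
    (1 - (4 * u - i)) * (Lh (m + 1) (4 * k + i) : ℝ) + (4 * u - i) * (Rh (m + 1) (4 * k + i) : ℝ) := by
  unfold Lh Rh s1 s2
  rw [nd_succ m k i hi]
  obtain ⟨O, N, e⟩ := nd m k
  unfold F
  simp only
  rcases Nat.even_or_odd' k with ⟨c, rfl | rfl⟩
  · have e1 : 2 * c % 2 = 0 := by omega
    rw [if_pos e1, if_pos e1, if_pos e1]
    interval_cases i
    · have a1 : (2 * (2 * c) + 0 / 2) % 4 = 0 ∨ (2 * (2 * c) + 0 / 2) % 4 = 3 := by omega
      have a2 : (4 * (2 * c) + 0) % 2 = 0 := by omega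
      rw [if_pos a1, if_pos a2, if_pos a2, if_pos rfl, min_eq_left, min_eq_left]
      · push_cast; ring
      · push_cast at *; linarith
      · push_cast at *; linarith
    · have a1 : (2 * (2 * c) + 1 / 2) % 4 = 0 ∨ (2 * (2 * c) + 1 / 2) % 4 = 3 := by omega
      have a2 : ¬ (4 * (2 * c) + 1) % 2 = 0 := by omega
      rw [if_pos a1, if_neg a2, if_neg a2, if_neg (by omega), if_pos rfl, min_eq_left, min_eq_right]
      · push_cast; ring
      · push_cast at *; linarith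
      · push_cast at *; linarith
    · have a1 : ¬ ((2 * (2 * c) + 2 / 2) % 4 = 0 ∨ (2 * (2 * c) + 2 / 2) % 4 = 3) := by omega
      have a2 : (4 * (2 * c) + 2) % 2 = 0 := by omega
      rw [if_neg a1, if_pos a2, if_pos a2, if_neg (by omega), if_neg (by omega), if_pos rfl,
        min_eq_right, min_eq_left]
      · push_cast; ring
      · push_cast at *; linarith
      · push_cast at *; linarith
    · have a1 : ¬ ((2 * (2 * c) + 3 / 2) % 4 = 0 ∨ (2 * (2 * c) + 3 / 2) % 4 = 3) := by omega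
      have a2 : ¬ (4 * (2 * c) + 3) % 2 = 0 := by omega
      rw [if_neg a1, if_neg a2, if_neg a2, if_neg (by omega), if_neg (by omega), if_neg (by omega),
        min_eq_right, min_eq_right]
      · push_cast; ring
      · push_cast at *; linarith
      · push_cast at *; linarith
  · have e1 : ¬ (2 * c + 1) % 2 = 0 := by omega
    rw [if_neg e1, if_neg e1, if_neg e1]
    interval_cases i
    · have a1 : ¬ ((2 * (2 * c + 1) + 0 / 2) % 4 = 0 ∨ (2 * (2 * c + 1) + 0 / 2) % 4 = 3) := by omega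
      have a2 : (4 * (2 * c + 1) + 0) % 2 = 0 := by omega
      rw [if_neg a1, if_pos a2, if_pos a2, if_neg (by omega), if_neg (by omega), if_neg (by omega),
        min_eq_left, min_eq_left]
      · push_cast; ring
      · push_cast at *; linarith
      · push_cast at *; linarith
    · have a1 : ¬ ((2 * (2 * c + 1) + 1 / 2) % 4 = 0 ∨ (2 * (2 * c + 1) + 1 / 2) % 4 = 3) := by omega
      have a2 : ¬ (4 * (2 * c + 1) + 1) % 2 = 0 := by omega
      rw [if_neg a1, if_neg a2, if_neg a2, if_neg (by omega), if_neg (by omega), if_pos rfl,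
        min_eq_left, min_eq_right]
      · push_cast; ring
      · push_cast at *; linarith
      · push_cast at *; linarith
    · have a1 : (2 * (2 * c + 1) + 2 / 2) % 4 = 0 ∨ (2 * (2 * c + 1) + 2 / 2) % 4 = 3 := by omega
      have a2 : (4 * (2 * c + 1) + 2) % 2 = 0 := by omega
      rw [if_pos a1, if_pos a2, if_pos a2, if_neg (by omega), if_pos rfl, min_eq_right, min_eq_left]
      · push_cast; ring
      · push_cast at *; linarith
      · push_cast at *; linarith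
    · have a1 : (2 * (2 * c + 1) + 3 / 2) % 4 = 0 ∨ (2 * (2 * c + 1) + 3 / 2) % 4 = 3 := by omega
      have a2 : ¬ (4 * (2 * c + 1) + 3) % 2 = 0 := by omega
      rw [if_pos a1, if_neg a2, if_neg a2, if_pos (by omega), min_eq_right, min_eq_right]
      · push_cast; ring
      · push_cast at *; linarith
      · push_cast at *; linarith

theorem interp (m : ℕ) (x : ℝ) (hx : 0 ≤ x) :
    2 ^ (2 * m + 1) * ps (2 * m + 1) x =
      (1 - (2 ^ (2 * m + 1) * x - (⌊2 ^ (2 * m + 1) * x⌋₊ : ℝ))) * (Lh m ⌊2 ^ (2 * m + 1) * x⌋₊ : ℝ) +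
      (2 ^ (2 * m + 1) * x - (⌊2 ^ (2 * m + 1) * x⌋₊ : ℝ)) * (Rh m ⌊2 ^ (2 * m + 1) * x⌋₊ : ℝ) := by
  induction m with
  | zero =>
    have hX : 0 ≤ 2 * x := by positivity
    obtain ⟨k, u, hk, hu0, hu1⟩ : ∃ (k : ℕ) (u : ℝ), 2 * x = k + u ∧ 0 ≤ u ∧ u < 1 :=
      ⟨⌊2 * x⌋₊, 2 * x - ⌊2 * x⌋₊, by ring, by linarith [Nat.floor_le hX],
        by linarith [Nat.lt_floor_add_one (2 * x)]⟩
    have e1 : (2 : ℝ) ^ (2 * 0 + 1) * x = k + u := by rw [← hk]; norm_num
    have e2 : ⌊(2 : ℝ) ^ (2 * 0 + 1) * x⌋₊ = k := by rw [e1]; exact floor_add k u hu0 hu1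
    rw [e2, e1]
    unfold ps om W Lh Rh nd
    simp only [mul_zero, zero_add, Finset.range_one, Finset.sum_singleton, if_true]
    rcases Nat.even_or_odd' k with ⟨c, rfl | rfl⟩
    · have h1 : x = (c : ℝ) + u / 2 := by push_cast at hk; linarith
      have h2 : phi (2 ^ 0 * x) = u / 2 := by
        rw [pow_zero, one_mul, h1, phi_add c (u / 2) (by linarith) (by linarith), min_eq_left]
        linarith
      rw [h2, if_pos (by omega), if_pos (by omega)]
      push_cast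
      ring
    · have h1 : x = (c : ℝ) + (1 + u) / 2 := by push_cast at hk; linarith
      have h2 : phi (2 ^ 0 * x) = (1 - u) / 2 := by
        rw [pow_zero, one_mul, h1, phi_add c ((1 + u) / 2) (by linarith) (by linarith), min_eq_right]
        · ring
        · linarith
      rw [h2, if_neg (by omega), if_neg (by omega)]
      push_cast
      ring
  | succ m ih =>
    set X : ℝ := 2 ^ (2 * m + 1) * x with hXd
    have hX : 0 ≤ X := by positivity
    obtain ⟨k, u, hk, hu0, hu1⟩ : ∃ (k : ℕ) (u : ℝ), X = k + u ∧ 0 ≤ u ∧ u < 1 :=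
      ⟨⌊X⌋₊, X - ⌊X⌋₊, by ring, by linarith [Nat.floor_le hX],
        by linarith [Nat.lt_floor_add_one X]⟩
    have f1 : ⌊X⌋₊ = k := by rw [hk]; exact floor_add k u hu0 hu1
    obtain ⟨i, hi0, hi1⟩ : ∃ i : ℕ, (i : ℝ) ≤ 4 * u ∧ 4 * u < i + 1 :=
      ⟨⌊4 * u⌋₊, Nat.floor_le (by linarith), Nat.lt_floor_add_one _⟩
    have hi : i < 4 := by
      have : (i : ℝ) < 4 := by linarith
      exact_mod_cast this
    have g1 : (2 : ℝ) ^ (2 * (m + 1) + 1) * x = 4 * X := by
      rw [hXd, show 2 * (m + 1) + 1 = (2 * m + 1) + 2 by ring, pow_add]; ring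
    have g2 : (2 : ℝ) ^ (2 * m + 1 + 1) * x = 2 * X := by
      rw [hXd, pow_succ]; ring
    have g3 : 4 * X = ((4 * k + i : ℕ) : ℝ) + (4 * u - i) := by rw [hk]; push_cast; ring
    have f3 : ⌊4 * X⌋₊ = 4 * k + i := by
      rw [g3]; exact floor_add _ _ (by linarith) (by linarith)
    have hi2 : ((i / 2 : ℕ) : ℝ) ≤ 2 * u ∧ 2 * u < ((i / 2 : ℕ) : ℝ) + 1 := by
      have q1 : 2 * (i / 2) ≤ i := by omega
      have q2 : i + 1 ≤ 2 * (i / 2) + 2 := by omega
      have q1' : (2 : ℝ) * ((i / 2 : ℕ) : ℝ) ≤ i := by exact_mod_cast q1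
      have q2' : (i : ℝ) + 1 ≤ 2 * ((i / 2 : ℕ) : ℝ) + 2 := by exact_mod_cast q2
      constructor <;> linarith
    have g4 : 2 * X = ((2 * k + i / 2 : ℕ) : ℝ) + (2 * u - ((i / 2 : ℕ) : ℝ)) := by
      rw [hk]; push_cast; ring
    have f2 : ⌊2 * X⌋₊ = 2 * k + i / 2 := by
      rw [g4]; exact floor_add _ _ (by linarith [hi2.1]) (by linarith [hi2.2])
    rw [g1, f3]
    have hps : ps (2 * (m + 1) + 1) x = ps (2 * m + 1) x + om (2 * m + 1) x / 2 ^ (2 * m + 1) * phi X +
        om (2 * m + 1 + 1) x / 2 ^ (2 * m + 1 + 1) * phi (2 * X) := by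
      unfold ps
      rw [show 2 * (m + 1) + 1 = 2 * m + 1 + 1 + 1 by ring, Finset.sum_range_succ,
        Finset.sum_range_succ, g2]
    have ho1 : om (2 * m + 1) x = ((s1 (nd m k) : ℤ) : ℝ) := by
      unfold om W
      rw [if_neg (by omega), if_pos (by omega), show (2 * m + 1) / 2 = m by omega, ← hXd, f1]
    have ho2 : om (2 * m + 1 + 1) x = ((s2 (nd m k) (2 * k + i / 2) : ℤ) : ℝ) := by
      unfold om W
      rw [if_neg (by omega), if_neg (by omega), show (2 * m + 1 + 1) / 2 - 1 = m by omega, g2, f2,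
        show (2 * k + i / 2) / 2 = k by omega]
    have hp1 : phi X = min u (1 - u) := by rw [hk]; exact phi_add k u hu0 hu1
    have hp2 : phi (2 * X) = min (2 * u - ((i / 2 : ℕ) : ℝ)) (1 - (2 * u - ((i / 2 : ℕ) : ℝ))) := by
      rw [g4]; exact phi_add _ _ (by linarith [hi2.1]) (by linarith [hi2.2])
    have key := step_alg m k i hi u hi0 hi1
    rw [f1] at ih
    have hu : X - (k : ℝ) = u := by rw [hk]; ring
    rw [hu] at ih
    have hv : 4 * X - ((4 * k + i : ℕ) : ℝ) = 4 * u - i := by rw [g3]; ring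
    rw [hv, ← key, hps, ho1, ho2, hp1, hp2, ← ih]
    have p1 : (2 : ℝ) ^ (2 * (m + 1) + 1) = 4 * 2 ^ (2 * m + 1) := by
      rw [show 2 * (m + 1) + 1 = (2 * m + 1) + 2 by ring, pow_add]; ring
    have p2 : (2 : ℝ) ^ (2 * m + 1 + 1) = 2 * 2 ^ (2 * m + 1) := by rw [pow_succ]; ring
    rw [p1, p2]
    have p0 : (2 : ℝ) ^ (2 * m + 1) ≠ 0 := by positivity
    field_simp
    ring

end Pool.Agent.Q277.TG
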