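import Mathlib

set_option autoImplicit false

namespace Pool.Agent.Q277.TG

/-- the division point (in units of the odd level) -/
def wf (O N : ℤ) : ℤ :=
  if O < N then (if (N - O) % 8 = 1 ∨ (N - O) % 8 = 3 then (O + N + 1) / 2 else (O + N - 1) / 2)
  else (if (O - N) % 8 = 1 ∨ (O - N) % 8 = 3 then (O + N - 1) / 2 else (O + N + 1) / 2)

/-- the last odd division point (in units of the next odd level) -/
def xf (O N e : ℤ) : ℤ :=
  if N - O = 1 ∨ O - N = 1 then 4 * N + (2 * e - 1)
  else if O < N then (if (N - O) % 8 = 7 then O + 3 * N - 2 else O + 3 * N)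
  else (if (O - N) % 8 = 7 then O + 3 * N + 2 else O + 3 * N)

def l2 (O N e : ℤ) : ℤ := if N - O = 1 ∨ O - N = 1 then 0 else e
def l3 (O N e : ℤ) : ℤ := if N - O = 1 ∨ O - N = 1 then 1 else e

/-- the specification of the rule, `O = 4 c` and `t` parametrises the slope -/
def Spec (c t N e w x a b : ℤ) : Prop :=
  (N = 4 * c + 1 ∧ w = 4 * c + 1 ∧ x = 16 * c + 3 + 2 * e ∧ a = 0 ∧ b = 1) ∨
  (N = 4 * c + 8 * t + 9 ∧ w = 4 * c + 4 * t + 5 ∧ x = 16 * c + 24 * t + 27 ∧ a = e ∧ b = e) ∨
  (N = 4 * c + 8 * t + 3 ∧ w = 4 * c + 4 * t + 2 ∧ x = 16 * c + 24 * t + 9 ∧ a = e ∧ b = e) ∨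
  (N = 4 * c + 8 * t + 5 ∧ w = 4 * c + 4 * t + 2 ∧ x = 16 * c + 24 * t + 15 ∧ a = e ∧ b = e) ∨
  (N = 4 * c + 8 * t + 7 ∧ w = 4 * c + 4 * t + 3 ∧ x = 16 * c + 24 * t + 19 ∧ a = e ∧ b = e) ∨
  (N = 4 * c - 1 ∧ w = 4 * c - 1 ∧ x = 16 * c - 5 + 2 * e ∧ a = 0 ∧ b = 1) ∨
  (N = 4 * c - 8 * t - 9 ∧ w = 4 * c - 4 * t - 5 ∧ x = 16 * c - 24 * t - 27 ∧ a = e ∧ b = e) ∨
  (N = 4 * c - 8 * t - 3 ∧ w = 4 * c - 4 * t - 2 ∧ x = 16 * c - 24 * t - 9 ∧ a = e ∧ b = e) ∨
  (N = 4 * c - 8 * t - 5 ∧ w = 4 * c - 4 * t - 2 ∧ x = 16 * c - 24 * t - 15 ∧ a = e ∧ b = e) ∨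
  (N = 4 * c - 8 * t - 7 ∧ w = 4 * c - 4 * t - 3 ∧ x = 16 * c - 24 * t - 19 ∧ a = e ∧ b = e)

theorem spec (O N e : ℤ) (hO : O % 4 = 0) (hN : N % 2 = 1) :
    ∃ c t : ℤ, O = 4 * c ∧ 0 ≤ t ∧ Spec c t N e (wf O N) (xf O N e) (l2 O N e) (l3 O N e) := by
  obtain ⟨c, rfl⟩ : ∃ c, O = 4 * c := ⟨O / 4, by omega⟩
  unfold Spec
  rcases lt_or_gt_of_ne (show 4 * c ≠ N by omega) with h | h
  · obtain ⟨t, ht⟩ : ∃ t, N - 4 * c = 8 * t + 1 ∨ N - 4 * c = 8 * t + 3 ∨ N - 4 * c = 8 * t + 5 ∨
        N - 4 * c = 8 * t + 7 := ⟨(N - 4 * c) / 8, by omega⟩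
    rcases ht with ht | ht | ht | ht
    · rcases eq_or_ne t 0 with h0 | h0
      · refine ⟨c, 0, rfl, le_refl 0, ?_⟩
        have hw : wf (4 * c) N = 4 * c + 1 := by
          unfold wf
          rw [if_pos (by omega), if_pos (by omega)]; omega
        have hx : xf (4 * c) N e = 16 * c + 3 + 2 * e := by
          unfold xf
          rw [if_pos (by omega)]; omega
        have ha : l2 (4 * c) N e = 0 := by
          unfold l2
          rw [if_pos (by omega)]
        have hb : l3 (4 * c) N e = 1 := by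
          unfold l3
          rw [if_pos (by omega)]
        exact Or.inl ⟨by omega, hw, hx, ha, hb⟩
      · refine ⟨c, t - 1, rfl, by omega, ?_⟩
        have hw : wf (4 * c) N = 4 * c + 4 * (t - 1) + 5 := by
          unfold wf
          rw [if_pos (by omega), if_pos (by omega)]; omega
        have hx : xf (4 * c) N e = 16 * c + 24 * (t - 1) + 27 := by
          unfold xf
          rw [if_neg (by omega), if_pos (by omega), if_neg (by omega)]; omega
        have ha : l2 (4 * c) N e = e := by
          unfold l2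
          rw [if_neg (by omega)]
        have hb : l3 (4 * c) N e = e := by
          unfold l3
          rw [if_neg (by omega)]
        exact Or.inr (Or.inl ⟨by omega, hw, hx, ha, hb⟩)
    · refine ⟨c, t, rfl, by omega, ?_⟩
      have hw : wf (4 * c) N = 4 * c + 4 * t + 2 := by
        unfold wf
        rw [if_pos (by omega), if_pos (by omega)]; omega
      have hx : xf (4 * c) N e = 16 * c + 24 * t + 9 := by
        unfold xf
        rw [if_neg (by omega), if_pos (by omega), if_neg (by omega)]; omega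
      have ha : l2 (4 * c) N e = e := by
        unfold l2
        rw [if_neg (by omega)]
      have hb : l3 (4 * c) N e = e := by
        unfold l3
        rw [if_neg (by omega)]
      exact Or.inr (Or.inr (Or.inl ⟨by omega, hw, hx, ha, hb⟩))
    · refine ⟨c, t, rfl, by omega, ?_⟩
      have hw : wf (4 * c) N = 4 * c + 4 * t + 2 := by
        unfold wf
        rw [if_pos (by omega), if_neg (by omega)]; omega
      have hx : xf (4 * c) N e = 16 * c + 24 * t + 15 := by
        unfold xf
        rw [if_neg (by omega), if_pos (by omega), if_neg (by omega)]; omega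
      have ha : l2 (4 * c) N e = e := by
        unfold l2
        rw [if_neg (by omega)]
      have hb : l3 (4 * c) N e = e := by
        unfold l3
        rw [if_neg (by omega)]
      exact Or.inr (Or.inr (Or.inr (Or.inl ⟨by omega, hw, hx, ha, hb⟩)))
    · refine ⟨c, t, rfl, by omega, ?_⟩
      have hw : wf (4 * c) N = 4 * c + 4 * t + 3 := by
        unfold wf
        rw [if_pos (by omega), if_neg (by omega)]; omega
      have hx : xf (4 * c) N e = 16 * c + 24 * t + 19 := by
        unfold xf
        rw [if_neg (by omega), if_pos (by omega), if_pos (by omega)]; omega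
      have ha : l2 (4 * c) N e = e := by
        unfold l2
        rw [if_neg (by omega)]
      have hb : l3 (4 * c) N e = e := by
        unfold l3
        rw [if_neg (by omega)]
      exact Or.inr (Or.inr (Or.inr (Or.inr (Or.inl ⟨by omega, hw, hx, ha, hb⟩))))
  · obtain ⟨t, ht⟩ : ∃ t, 4 * c - N = 8 * t + 1 ∨ 4 * c - N = 8 * t + 3 ∨ 4 * c - N = 8 * t + 5 ∨
        4 * c - N = 8 * t + 7 := ⟨(4 * c - N) / 8, by omega⟩
    rcases ht with ht | ht | ht | ht
    · rcases eq_or_ne t 0 with h0 | h0
      · refine ⟨c, 0, rfl, le_refl 0, ?_⟩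
        have hw : wf (4 * c) N = 4 * c - 1 := by
          unfold wf
          rw [if_neg (by omega), if_pos (by omega)]; omega
        have hx : xf (4 * c) N e = 16 * c - 5 + 2 * e := by
          unfold xf
          rw [if_pos (by omega)]; omega
        have ha : l2 (4 * c) N e = 0 := by
          unfold l2
          rw [if_pos (by omega)]
        have hb : l3 (4 * c) N e = 1 := by
          unfold l3
          rw [if_pos (by omega)]
        exact Or.inr (Or.inr (Or.inr (Or.inr (Or.inr (Or.inl ⟨by omega, hw, hx, ha, hb⟩)))))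
      · refine ⟨c, t - 1, rfl, by omega, ?_⟩
        have hw : wf (4 * c) N = 4 * c - 4 * (t - 1) - 5 := by
          unfold wf
          rw [if_neg (by omega), if_pos (by omega)]; omega
        have hx : xf (4 * c) N e = 16 * c - 24 * (t - 1) - 27 := by
          unfold xf
          rw [if_neg (by omega), if_neg (by omega), if_neg (by omega)]; omega
        have ha : l2 (4 * c) N e = e := by
          unfold l2
          rw [if_neg (by omega)]
        have hb : l3 (4 * c) N e = e := by
          unfold l3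
          rw [if_neg (by omega)]
        exact Or.inr (Or.inr (Or.inr (Or.inr (Or.inr (Or.inr (Or.inl ⟨by omega, hw, hx, ha, hb⟩))))))
    · refine ⟨c, t, rfl, by omega, ?_⟩
      have hw : wf (4 * c) N = 4 * c - 4 * t - 2 := by
        unfold wf
        rw [if_neg (by omega), if_pos (by omega)]; omega
      have hx : xf (4 * c) N e = 16 * c - 24 * t - 9 := by
        unfold xf
        rw [if_neg (by omega), if_neg (by omega), if_neg (by omega)]; omega
      have ha : l2 (4 * c) N e = e := by
        unfold l2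
        rw [if_neg (by omega)]
      have hb : l3 (4 * c) N e = e := by
        unfold l3
        rw [if_neg (by omega)]
      exact Or.inr (Or.inr (Or.inr (Or.inr (Or.inr (Or.inr (Or.inr (Or.inl ⟨by omega, hw, hx, ha, hb⟩)))))))
    · refine ⟨c, t, rfl, by omega, ?_⟩
      have hw : wf (4 * c) N = 4 * c - 4 * t - 2 := by
        unfold wf
        rw [if_neg (by omega), if_neg (by omega)]; omega
      have hx : xf (4 * c) N e = 16 * c - 24 * t - 15 := by
        unfold xf
        rw [if_neg (by omega), if_neg (by omega), if_neg (by omega)]; omega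
      have ha : l2 (4 * c) N e = e := by
        unfold l2
        rw [if_neg (by omega)]
      have hb : l3 (4 * c) N e = e := by
        unfold l3
        rw [if_neg (by omega)]
      exact Or.inr (Or.inr (Or.inr (Or.inr (Or.inr (Or.inr (Or.inr (Or.inr (Or.inl ⟨by omega, hw, hx, ha, hb⟩))))))))
    · refine ⟨c, t, rfl, by omega, ?_⟩
      have hw : wf (4 * c) N = 4 * c - 4 * t - 3 := by
        unfold wf
        rw [if_neg (by omega), if_neg (by omega)]; omega
      have hx : xf (4 * c) N e = 16 * c - 24 * t - 19 := by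
        unfold xf
        rw [if_neg (by omega), if_neg (by omega), if_pos (by omega)]; omega
      have ha : l2 (4 * c) N e = e := by
        unfold l2
        rw [if_neg (by omega)]
      have hb : l3 (4 * c) N e = e := by
        unfold l3
        rw [if_neg (by omega)]
      exact Or.inr (Or.inr (Or.inr (Or.inr (Or.inr (Or.inr (Or.inr (Or.inr (Or.inr (⟨by omega, hw, hx, ha, hb⟩)))))))))

/-- the four grandchildren types -/
def F (O N e : ℤ) (j : ℕ) : ℤ × ℤ × ℤ :=
  if j = 0 then (4 * O, 3 * O + N, e) else if j = 1 then (4 * wf O N, 3 * O + N, e)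
  else if j = 2 then (4 * wf O N, xf O N e, l2 O N e) else (4 * N, xf O N e, l3 O N e)

theorem F_inj {O N e O' N' e' : ℤ} (hO : O % 4 = 0) (hN : N % 2 = 1) (he : e = 0 ∨ e = 1)
    (hO' : O' % 4 = 0) (hN' : N' % 2 = 1) (he' : e' = 0 ∨ e' = 1) {j j' : ℕ} (hj : j < 4)
    (hj' : j' < 4) (h : F O N e j = F O' N' e' j') : O = O' ∧ N = N' ∧ e = e' ∧ j = j' := by
  obtain ⟨c, t, hc, ht, h1⟩ := spec O N e hO hN
  obtain ⟨c', t', hc', ht', h2⟩ := spec O' N' e' hO' hN'
  unfold F at h
  generalize wf O N = w at *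
  generalize xf O N e = x at *
  generalize l2 O N e = a at *
  generalize l3 O N e = b at *
  generalize wf O' N' = w' at *
  generalize xf O' N' e' = x' at *
  generalize l2 O' N' e' = a' at *
  generalize l3 O' N' e' = b' at *
  clear hO hN hO' hN'
  unfold Spec at h1 h2
  subst hc hc'
  interval_cases j <;> interval_cases j' <;>
  simp only [Prod.mk.injEq, if_true, one_ne_zero, if_false, OfNat.ofNat_ne_zero,
    OfNat.ofNat_ne_one, Nat.succ_ne_self, OfNat.zero_ne_ofNat] at h <;>
  obtain ⟨p, q, r⟩ := h <;>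
  rcases h1 with h1 | h1 | h1 | h1 | h1 | h1 | h1 | h1 | h1 | h1 <;>
  obtain ⟨rfl, rfl, rfl, rfl, rfl⟩ := h1 <;>
  rcases h2 with h2 | h2 | h2 | h2 | h2 | h2 | h2 | h2 | h2 | h2 <;>
  obtain ⟨rfl, rfl, rfl, rfl, rfl⟩ := h2 <;> omega

end Pool.Agent.Q277.TG
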