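import Pool.Agent.Q277.TG.Rule

set_option autoImplicit false

namespace Pool.Agent.Q277.TG

/-- the labelled type of the `k`-th dyadic interval of the odd level `2 m + 1` -/
def nd : ℕ → ℕ → ℤ × ℤ × ℤ
  | 0, k => (0, 1, ((k % 2 : ℕ) : ℤ))
  | m + 1, k =>
    F (nd m (k / 4)).1 (nd m (k / 4)).2.1 (nd m (k / 4)).2.2
      (if (k / 4) % 2 = 0 then k % 4 else 3 - k % 4)

/-- validity of a type -/
def Good (m : ℕ) (p : ℤ × ℤ × ℤ) : Prop :=
  p.1 % 4 = 0 ∧ p.2.1 % 2 = 1 ∧ (p.2.2 = 0 ∨ p.2.2 = 1) ∧ p.2.1 - p.1 ≤ 2 * m + 1 ∧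
    p.1 - p.2.1 ≤ 2 * m + 1

theorem good_F {m : ℕ} {O N e : ℤ} (h : Good m (O, N, e)) {j : ℕ} (hj : j < 4) :
    Good (m + 1) (F O N e j) := by
  obtain ⟨h1, h2, h3, h4, h5⟩ := h
  simp only at h1 h2 h3 h4 h5
  obtain ⟨c, t, hc, ht, hs⟩ := spec O N e h1 h2
  unfold F
  generalize wf O N = w at *
  generalize xf O N e = x at *
  generalize l2 O N e = a at *
  generalize l3 O N e = b at *
  unfold Spec at hs
  subst hc
  interval_cases j <;> unfold Good <;>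
  simp only [if_true, one_ne_zero, if_false, OfNat.ofNat_ne_zero,
    OfNat.ofNat_ne_one, Nat.succ_ne_self, OfNat.zero_ne_ofNat] <;>
  rcases hs with hs | hs | hs | hs | hs | hs | hs | hs | hs | hs <;>
  obtain ⟨rfl, rfl, rfl, rfl, rfl⟩ := hs <;> push_cast <;>
  first | omega | (refine ⟨?_, ?_, ?_, ?_, ?_⟩ <;> first | omega | simp)

theorem nd_good (m : ℕ) : ∀ k : ℕ, Good m (nd m k) := by
  induction m with
  | zero =>
    intro k
    unfold nd Good
    simp only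
    omega
  | succ m ih =>
    intro k
    unfold nd
    apply good_F
    · exact ih (k / 4)
    · split_ifs <;> omega

theorem nd_inj (m : ℕ) : ∀ k k' : ℕ, k < 2 * 4 ^ m → k' < 2 * 4 ^ m → nd m k = nd m k' → k = k' := by
  induction m with
  | zero =>
    intro k k' hk hk' h
    unfold nd at h
    simp only [Prod.mk.injEq, true_and] at h
    omega
  | succ m ih =>
    intro k k' hk hk' h
    unfold nd at h
    have g := nd_good m (k / 4)
    have g' := nd_good m (k' / 4)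
    obtain ⟨q1, q2, q3, q4⟩ := F_inj g.1 g.2.1 g.2.2.1 g'.1 g'.2.1 g'.2.2.1
      (by split_ifs <;> omega) (by split_ifs <;> omega) h
    have e1 : k / 4 = k' / 4 := by
      apply ih
      · rw [pow_succ] at hk; omega
      · rw [pow_succ] at hk'; omega
      · exact Prod.ext q1 (Prod.ext q2 q3)
    rw [e1] at q4
    split_ifs at q4 <;> omega

/-- the left and right end heights -/
def Lh (m k : ℕ) : ℤ := if k % 2 = 0 then (nd m k).1 else (nd m k).2.1
def Rh (m k : ℕ) : ℤ := if k % 2 = 0 then (nd m k).2.1 else (nd m k).1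

/-- signs at the odd level -/
def s1 (p : ℤ × ℤ × ℤ) : ℤ := 2 * wf p.1 p.2.1 - (p.1 + p.2.1)

/-- signs at the even level -/
def s2 (p : ℤ × ℤ × ℤ) (k : ℕ) : ℤ :=
  if k % 4 = 0 ∨ k % 4 = 3 then 3 * p.1 + p.2.1 - (2 * p.1 + 2 * wf p.1 p.2.1)
  else xf p.1 p.2.1 p.2.2 - (2 * p.2.1 + 2 * wf p.1 p.2.1)

/-- all the signs -/
def W (n k : ℕ) : ℤ :=
  if n = 0 then 1 else if n % 2 = 1 then s1 (nd (n / 2) k) else s2 (nd (n / 2 - 1) (k / 2)) k

theorem s1_sign {m : ℕ} {p : ℤ × ℤ × ℤ} (h : Good m p) : s1 p = 1 ∨ s1 p = -1 := by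
  obtain ⟨O, N, e⟩ := p
  obtain ⟨h1, h2, h3, h4, h5⟩ := h
  simp only at h1 h2 h3 h4 h5
  obtain ⟨c, t, hc, ht, hs⟩ := spec O N e h1 h2
  unfold s1
  simp only
  unfold Spec at hs
  subst hc
  rcases hs with hs | hs | hs | hs | hs | hs | hs | hs | hs | hs <;>
  obtain ⟨hs1, hs2, hs3, hs4, hs5⟩ := hs <;> omega

theorem s2_sign {m : ℕ} {p : ℤ × ℤ × ℤ} (h : Good m p) (k : ℕ) : s2 p k = 1 ∨ s2 p k = -1 := by
  obtain ⟨O, N, e⟩ := p
  obtain ⟨h1, h2, h3, h4, h5⟩ := h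
  simp only at h1 h2 h3 h4 h5
  obtain ⟨c, t, hc, ht, hs⟩ := spec O N e h1 h2
  unfold s2
  simp only
  unfold Spec at hs
  subst hc
  rcases hs with hs | hs | hs | hs | hs | hs | hs | hs | hs | hs <;>
  obtain ⟨hs1, hs2, hs3, hs4, hs5⟩ := hs <;> split_ifs <;> omega

theorem W_sign (n k : ℕ) : W n k = 1 ∨ W n k = -1 := by
  unfold W
  split_ifs
  · exact Or.inl rfl
  · exact s1_sign (nd_good _ _)
  · exact s2_sign (nd_good _ _) k

end Pool.Agent.Q277.TG
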